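import Mathlib
import Pool.Agent.H512R3.StackProb
import Pool.Agent.H512R3.StackMoment
import Pool.Agent.H512R3.StackDefs
import Pool.Agent.H512R3.StackMain

set_option autoImplicit false
open Finset Matrix

namespace Pool.Agent.Results.MP_59a663_pr.ConstSparsityFails

open Pool.Agent.H512R3.Stack

/-- extension by zero from the first `r` coordinates -/
noncomputable def ext0 {r n : ℕ} (h : r ≤ n) : (Fin r → ℝ) →ₗ[ℝ] (Fin n → ℝ) :=
  Function.ExtendByZero.linearMap ℝ (Fin.castLE h)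

lemma ext0_injective {r n : ℕ} (h : r ≤ n) : Function.Injective (ext0 h) := by
  intro x y hxy
  ext i
  have h1 := congrFun hxy (Fin.castLE h i)
  simp only [ext0, Function.ExtendByZero.linearMap_apply] at h1
  rw [(Fin.castLE_injective h).extend_apply, (Fin.castLE_injective h).extend_apply] at h1
  exact h1

lemma mem_range_ext0 {r n : ℕ} (h : r ≤ n) (x : Fin n → ℝ)
    (hx : ∀ i, x i ≠ 0 → ∃ j, i = Fin.castLE h j) : x ∈ LinearMap.range (ext0 h) := by
  refine ⟨fun j => x (Fin.castLE h j), ?_⟩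
  ext i
  simp only [ext0, Function.ExtendByZero.linearMap_apply]
  by_cases hi : ∃ j, Fin.castLE h j = i
  · obtain ⟨j, rfl⟩ := hi
    rw [(Fin.castLE_injective h).extend_apply]
  · rw [Function.extend_apply' _ _ _ hi]
    by_contra hne
    obtain ⟨j, hj⟩ := hx i (fun h0 => hne (by simp [h0]))
    exact hi ⟨j, hj.symm⟩

lemma finrank_range_ext0 {r n : ℕ} (h : r ≤ n) :
    Module.finrank ℝ (LinearMap.range (ext0 h)) = r := by
  rw [LinearMap.finrank_range_of_inj (ext0_injective h)]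
  simp

lemma dot_self_pos {n : ℕ} (x : Fin n → ℝ) (hx : x ≠ 0) : 0 < x ⬝ᵥ x := by
  have h1 : 0 ≤ x ⬝ᵥ x := Finset.sum_nonneg fun i _ => mul_self_nonneg _
  rcases h1.lt_or_eq with h | h
  · exact h
  · exact absurd (dotProduct_self_eq_zero.1 h.symm) hx

/-- too few columns: never injective -/
lemma few_columns {n ζ b r : ℕ} (h : r ≤ n) (hlt : ζ * b < r) (ω : Outcome n ζ b) (α : ℝ)
    (hα : 0 < α) : ¬ Injects ω (LinearMap.range (ext0 h)) α := by
  intro hinj
  let L : (Fin r → ℝ) →ₗ[ℝ] (Fin ζ × Fin b → ℝ) :=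
    (Matrix.mulVecLin (sparseStack ω)ᵀ).comp (ext0 h)
  have hker : LinearMap.ker L ≠ ⊥ := by
    apply LinearMap.ker_ne_bot_of_finrank_lt
    simpa using hlt
  obtain ⟨y, hy, hy0⟩ := (Submodule.ne_bot_iff _).1 hker
  have hx0 : ext0 h y ≠ 0 := by
    intro h0
    apply hy0
    apply ext0_injective h
    rw [h0, map_zero]
  have h1 := hinj (ext0 h y) ⟨y, rfl⟩
  have h2 : sqNormImage ω (ext0 h y) = 0 := by
    have h3 : (sparseStack ω)ᵀ *ᵥ (ext0 h y) = 0 := by
      exact LinearMap.mem_ker.1 hy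
    unfold sqNormImage
    rw [h3]; simp
  rw [h2] at h1
  have h4 := dot_self_pos _ hx0
  nlinarith

lemma est1 {η t z r ζ b : ℝ} (hη : 0 < η) (hζ0 : 0 < ζ) (hb0 : 0 < b) (hζZ : ζ ≤ z)
    (hbζ : r ≤ ζ * b) (h1 : 3 * t ^ 2 * z ^ 2 / η ≤ r) : t ^ 2 * ζ / b ≤ η / 3 := by
  rw [div_le_iff₀ hη] at h1
  rw [div_le_iff₀ hb0]
  have h2 : t ^ 2 * ζ ^ 2 ≤ t ^ 2 * z ^ 2 := by gcongr
  have h3 : r * η ≤ ζ * b * η := mul_le_mul_of_nonneg_right hbζ hη.le
  have h4 : ζ * (t ^ 2 * ζ) ≤ ζ * (η / 3 * b) := by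
    have h5 : ζ * (t ^ 2 * ζ) = t ^ 2 * ζ ^ 2 := by ring
    have h6 : ζ * (η / 3 * b) = (ζ * b * η) / 3 := by ring
    rw [h5, h6]; linarith
  exact le_of_mul_le_mul_left h4 hζ0

lemma est3 {η t z r ζ b y : ℝ} (hη : 0 < η) (ht : 0 < t) (hζ0 : 0 < ζ) (hb0 : 0 < b)
    (hζZ : ζ ≤ z) (hy0 : 0 ≤ y) (hy : y ≤ ζ * b)
    (hbζ : r ≤ ζ * b) (h1 : 3 * t * z ^ 4 / η ≤ r) : t * y ^ 2 * ζ / b ^ 3 ≤ η / 3 := by
  rw [div_le_iff₀ hη] at h1
  have h9 : y ^ 2 ≤ (ζ * b) ^ 2 := pow_le_pow_left₀ hy0 hy 2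
  have h10 : t * y ^ 2 * ζ / b ^ 3 ≤ t * (ζ * b) ^ 2 * ζ / b ^ 3 := by gcongr
  refine h10.trans ?_
  have h11 : t * (ζ * b) ^ 2 * ζ / b ^ 3 = t * ζ ^ 3 / b := by field_simp
  rw [h11, div_le_iff₀ hb0]
  have h12 : t * ζ ^ 4 ≤ t * z ^ 4 := by gcongr
  have h13 : r * η ≤ ζ * b * η := mul_le_mul_of_nonneg_right hbζ hη.le
  have h14 : ζ * (t * ζ ^ 3) ≤ ζ * (η / 3 * b) := by
    have h5 : ζ * (t * ζ ^ 3) = t * ζ ^ 4 := by ring
    have h6 : ζ * (η / 3 * b) = (ζ * b * η) / 3 := by ring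
    rw [h5, h6]; linarith
  exact le_of_mul_le_mul_left h14 hζ0

lemma est2 {η t p w : ℝ} (hη : 0 < η) (ht : 0 < t) (hp : 0 < p) (hpw : p ≤ w)
    (h : 3 / (η * p) ≤ t) : 1 / (t * w) ≤ η / 3 := by
  have hw : 0 < w := lt_of_lt_of_le hp hpw
  calc 1 / (t * w) ≤ 1 / (t * p) := by
        apply one_div_le_one_div_of_le (by positivity)
        exact mul_le_mul_of_nonneg_left hpw ht.le
    _ ≤ η / 3 := by
        rw [div_le_iff₀ (by positivity)] at h ⊢
        linarith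

/-- Strong form of the failure, with an explicit bad subspace. For all constants `C₁, C₂`, every `α > 0` and every `η > 0` there is `r₀` such that for all
`r ≥ r₀`, all `n ≥ r` and all SparseStacks with `1 ≤ ζ ≤ C₁` nonzeros per row and
`k = b ζ ≤ C₂ r` columns, some `r`-dimensional subspace `V` of `ℝⁿ` has the property that with
probability at least `1 - η` the matrix `Ω` is *not* injective on `V` with parameter `α`. -/
theorem failure (C₁ C₂ α η : ℝ) (hα : 0 < α) (hη : 0 < η) :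
    ∃ r₀ : ℕ, ∀ r : ℕ, r₀ ≤ r → ∀ n : ℕ, r ≤ n → ∀ ζ b : ℕ, 1 ≤ ζ → 1 ≤ b →
      (ζ : ℝ) ≤ C₁ → ((b * ζ : ℕ) : ℝ) ≤ C₂ * r →
      ∃ V : Submodule ℝ (Fin n → ℝ), Module.finrank ℝ V = r ∧
        1 - η ≤ pr (fun ω : Outcome n ζ b => ¬ Injects ω V α) := by
  classical
  set Z : ℕ := max ⌈C₁⌉₊ 1
  have hZ1 : 1 ≤ Z := le_max_right _ _
  have hZ0 : (0 : ℝ) < Z := by exact_mod_cast hZ1
  set m : ℕ := ⌊(Z : ℝ) / α⌋₊ + 1
  have hm1 : 1 ≤ m := Nat.le_add_left _ _
  have hm0 : (0 : ℝ) < m := by exact_mod_cast hm1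
  have hmα : (Z : ℝ) < α * m := by
    have h1 : (Z : ℝ) / α < m := by
      have := Nat.lt_floor_add_one ((Z : ℝ) / α)
      simpa [m] using this
    rw [div_lt_iff₀ hα] at h1
    linarith
  set C : ℝ := max C₂ 1
  have hC1 : 1 ≤ C := le_max_right _ _
  have hC0 : 0 < C := by linarith
  set lam : ℝ := 1 / (4 * Z * m * C)
  have hlam : 0 < lam := by positivity
  set p0 : ℝ := 1 - Real.exp (-lam)
  have hp0 : 0 < p0 := by
    have : Real.exp (-lam) < 1 := by rw [Real.exp_lt_one_iff]; linarith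
    simp only [p0]; linarith
  have hp01 : p0 ≤ 1 := by
    have : 0 < Real.exp (-lam) := Real.exp_pos _
    simp only [p0]; linarith
  set T : ℕ := ⌈3 / (η * p0 ^ (Z * m))⌉₊ + 1
  have hT1 : 1 ≤ T := Nat.le_add_left _ _
  have hT0 : (0 : ℝ) < T := by exact_mod_cast hT1
  have hTη : 3 / (η * p0 ^ (Z * m)) ≤ T := by
    have := Nat.le_ceil (3 / (η * p0 ^ (Z * m)))
    simp only [T]; push_cast; linarith
  refine ⟨2 * T + 4 * Z * m + 2 * Z + ⌈3 * (T : ℝ) ^ 2 * (Z : ℝ) ^ 2 / η⌉₊ +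
    ⌈3 * (T : ℝ) * (Z : ℝ) ^ 4 / η⌉₊ + 1, ?_⟩
  intro r hr n hn ζ b hζ1 hb1 hζC hbC
  refine ⟨LinearMap.range (ext0 hn), finrank_range_ext0 hn, ?_⟩
  have : NeZero b := ⟨by omega⟩
  by_cases hlt : ζ * b < r
  · -- rank deficiency
    have h1 : pr (fun _ : Outcome n ζ b => True) ≤
        pr (fun ω : Outcome n ζ b => ¬ Injects ω (LinearMap.range (ext0 hn)) α) :=
      pr_mono fun ω _ => few_columns hn hlt ω α hα
    have h2 : pr (fun _ : Outcome n ζ b => True) = 1 := by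
      rw [pr_eq, Finset.filter_true_of_mem (fun _ _ => trivial), Finset.card_univ]
      exact div_self (by exact_mod_cast Fintype.card_ne_zero)
    rw [h2] at h1
    linarith
  · push Not at hlt
    have hζZ : ζ ≤ Z := by
      have h1 : (ζ : ℝ) ≤ (⌈C₁⌉₊ : ℝ) := hζC.trans (Nat.le_ceil _)
      have h2 : ζ ≤ ⌈C₁⌉₊ := by exact_mod_cast h1
      exact h2.trans (le_max_left _ _)
    have hζ0 : (0 : ℝ) < ζ := by exact_mod_cast hζ1
    have hζZ' : (ζ : ℝ) ≤ Z := by exact_mod_cast hζZ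
    set q : ℕ := r / (2 * Z * m)
    have hZm : 0 < 2 * Z * m := by positivity
    have hrT : 2 * T ≤ r := by omega
    have hrm : 4 * Z * m ≤ r := by omega
    have hrZ : 2 * Z ≤ r := by omega
    have hr0 : 0 < r := by omega
    have hr0' : (0 : ℝ) < r := by exact_mod_cast hr0
    have hq1 : 1 ≤ q := by
      simp only [q]
      rw [Nat.one_le_div_iff hZm]
      have h1 : 4 * Z * m = 2 * (2 * Z * m) := by ring
      omega
    have hqr : q * (2 * Z * m) ≤ r := Nat.div_mul_le_self _ _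
    have hqlow : (r : ℝ) / (4 * Z * m) ≤ q := by
      have h1 : r < (q + 1) * (2 * Z * m) := by
        have := Nat.lt_div_mul_add (a := r) hZm
        have h2 : (q + 1) * (2 * Z * m) = r / (2 * Z * m) * (2 * Z * m) + 2 * Z * m := by
          simp only [q]; ring
        rw [h2]; exact this
      have h2 : (r : ℝ) < ((q : ℝ) + 1) * (2 * Z * m) := by exact_mod_cast h1
      have h3 : (4 * Z * m : ℝ) ≤ r := by exact_mod_cast hrm
      rw [div_le_iff₀ (by positivity)]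
      have h4 : ((q : ℝ) + 1) * (2 * Z * m) = (q * (4 * Z * m)) / 2 + (4 * Z * m) / 2 := by ring
      linarith
    have hb2 : 2 ≤ b := by
      by_contra hcon
      have : b ≤ 1 := by omega
      have h2 : ζ * b ≤ Z * 1 := Nat.mul_le_mul hζZ this
      omega
    have hb0 : (0 : ℝ) < b := by positivity
    have hbζ : (r : ℝ) ≤ ζ * b := by exact_mod_cast hlt
    have hbCr : (b : ℝ) ≤ C * r := by
      have h1 : (b : ℝ) ≤ ((b * ζ : ℕ) : ℝ) := by
        have : b ≤ b * ζ := Nat.le_mul_of_pos_right b (by omega)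
        exact_mod_cast this
      have h2 : C₂ * r ≤ C * r := mul_le_mul_of_nonneg_right (le_max_left _ _) hr0'.le
      linarith
    -- the rows
    have hcard : Fintype.card (Fin T ⊕ ((Fin ζ × Fin m) × Fin q)) ≤ Fintype.card (Fin r) := by
      simp only [Fintype.card_sum, Fintype.card_prod, Fintype.card_fin]
      have h1 : ζ * m * q ≤ Z * m * q := by gcongr
      have h2 : q * (2 * Z * m) = 2 * (Z * m * q) := by ring
      omega
    obtain ⟨e⟩ := Function.Embedding.nonempty_of_card_le hcard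
    let row : Fin T ⊕ ((Fin ζ × Fin m) × Fin q) → Fin n := fun w => Fin.castLE hn (e w)
    have hrow : Function.Injective row := (Fin.castLE_injective hn).comp e.injective
    have hmain := prob_main (ζ := ζ) (m := m) hb2 hT1 hq1 row hrow
    -- numerical estimates
    have hx0 : 0 ≤ 1 - 1 / (b : ℝ) := by
      have : 1 / (b : ℝ) ≤ 1 := by
        rw [div_le_one hb0]; exact_mod_cast hb1
      linarith
    have hpow : (1 - 1 / (b : ℝ)) ^ q ≤ Real.exp (-lam) := by
      have h1 : 1 - 1 / (b : ℝ) ≤ Real.exp (-(1 / (b : ℝ))) := by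
        have := Real.add_one_le_exp (-(1 / (b : ℝ)))
        linarith
      have h2 : (1 - 1 / (b : ℝ)) ^ q ≤ Real.exp (-(1 / (b : ℝ))) ^ q := pow_le_pow_left₀ hx0 h1 q
      refine h2.trans ?_
      rw [← Real.exp_nat_mul]
      apply Real.exp_le_exp.2
      have h3 : lam ≤ q * (1 / (b : ℝ)) := by
        rw [mul_one_div, le_div_iff₀ hb0]
        calc lam * b ≤ lam * (C * r) := mul_le_mul_of_nonneg_left hbCr hlam.le
          _ = r / (4 * Z * m) := by
            simp only [lam]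
            field_simp
          _ ≤ q := hqlow
      linarith
    have hE2 : 1 / (T * (1 - (1 - 1 / (b : ℝ)) ^ q) ^ (ζ * m)) ≤ η / 3 := by
      have h1 : p0 ≤ 1 - (1 - 1 / (b : ℝ)) ^ q := by simp only [p0]; linarith
      have h2 : p0 ^ (Z * m) ≤ (1 - (1 - 1 / (b : ℝ)) ^ q) ^ (ζ * m) := by
        calc p0 ^ (Z * m) ≤ p0 ^ (ζ * m) := by
              apply pow_le_pow_of_le_one hp0.le hp01
              gcongr
          _ ≤ _ := pow_le_pow_left₀ hp0.le h1 _
      exact est2 hη hT0 (by positivity) h2 hTη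
    have hE1 : (T : ℝ) ^ 2 * ζ / b ≤ η / 3 := by
      have h1 : 3 * (T : ℝ) ^ 2 * (Z : ℝ) ^ 2 / η ≤ r := by
        refine (Nat.le_ceil _).trans ?_
        have : ⌈3 * (T : ℝ) ^ 2 * (Z : ℝ) ^ 2 / η⌉₊ ≤ r := by omega
        exact_mod_cast this
      exact est1 hη hζ0 hb0 hζZ' hbζ h1
    have hE3 : (T : ℝ) * (ζ * m * q) ^ 2 * ζ / b ^ 3 ≤ η / 3 := by
      have h1 : 3 * (T : ℝ) * (Z : ℝ) ^ 4 / η ≤ r := by
        refine (Nat.le_ceil _).trans ?_
        have : ⌈3 * (T : ℝ) * (Z : ℝ) ^ 4 / η⌉₊ ≤ r := by omega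
        exact_mod_cast this
      have h5 : ((ζ : ℝ) * m * q) ≤ ζ * b := by
        have h6 : ζ * m * q ≤ r := by
          have h7 : ζ * m * q ≤ Z * m * q := by gcongr
          calc ζ * m * q ≤ Z * m * q := h7
            _ ≤ q * (2 * Z * m) := by
              have : q * (2 * Z * m) = 2 * (Z * m * q) := by ring
              omega
            _ ≤ r := hqr
        have h8 : ((ζ * m * q : ℕ) : ℝ) ≤ r := by exact_mod_cast h6
        push_cast at h8
        linarith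
      exact est3 hη hT0 hζ0 hb0 hζZ' (by positivity) h5 hbζ h1
    have hbad : pr (fun s : Fin n → Fin ζ → Fin b => ¬ Good row s) ≤ η := by linarith
    rw [pr_not] at hbad
    have hgood : 1 - η ≤ pr (fun s : Fin n → Fin ζ → Fin b => Good row s) := by linarith
    refine hgood.trans ?_
    rw [← pr_snd (X := Fin n → Fin ζ → Bool) (fun s : Fin n → Fin ζ → Fin b => Good row s)]
    refine pr_mono fun ω hω hinj => ?_
    obtain ⟨a, g, hat, hcol⟩ := hω
    obtain ⟨x, hsupp, hx1, hx2⟩ := det_lemma hζ1 hm1 ω (row (Sum.inl a))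
      (fun p => row (Sum.inr (p, g p)))
      (fun p h => by have := hrow h; simp at this)
      hat hcol
    have hxV : x ∈ LinearMap.range (ext0 hn) := by
      apply mem_range_ext0
      intro i hi
      rcases hsupp i hi with h | ⟨p, h⟩
      · exact ⟨_, h⟩
      · exact ⟨_, h⟩
    have h1 := hinj x hxV
    have h2 : ((ζ : ℝ) - 1) / m < α := by
      rw [div_lt_iff₀ hm0]
      linarith
    nlinarith

/-- **Constant sparsity and linear embedding dimension never give an oblivious subspace injection.**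

For all constants `C₁, C₂`, every parameter `α > 0` and every failure probability `δ < 1` there is
`r₀` such that for all `r ≥ r₀`, all `n ≥ r` and all integers `ζ, b ≥ 1` with `ζ ≤ C₁` and
`k = b ζ ≤ C₂ r`, the SparseStack with parameters `n, ζ, b` is not an oblivious subspace injection
for `r`-dimensional subspaces of `ℝⁿ` with parameter `α` and failure probability `δ`. -/
theorem result (C₁ C₂ α δ : ℝ) (hα : 0 < α) (hδ : δ < 1) :
    ∃ r₀ : ℕ, ∀ r : ℕ, r₀ ≤ r → ∀ n : ℕ, r ≤ n → ∀ ζ b : ℕ, 1 ≤ ζ → 1 ≤ b →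
      (ζ : ℝ) ≤ C₁ → ((b * ζ : ℕ) : ℝ) ≤ C₂ * r → ¬ IsOSI n ζ b r α δ := by
  obtain ⟨r₀, h⟩ := failure C₁ C₂ α ((1 - δ) / 2) hα (by linarith)
  refine ⟨r₀, fun r hr n hn ζ b hζ hb h1 h2 hosi => ?_⟩
  obtain ⟨V, hV, hpr⟩ := h r hr n hn ζ b hζ hb h1 h2
  have h3 := hosi V hV
  have : NeZero b := ⟨by omega⟩
  rw [pr_not] at hpr
  linarith

/-- The negated form of Q1 follows. -/
theorem answer_Q1 (c C₁ C₂ α₀ : ℝ) (hc : 0 < c) (hα : 0 < α₀) :
    ∃ n r : ℕ, 1 ≤ r ∧ (r : ℝ) ≤ c * n / Real.log n ∧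
      ∀ ζ b : ℕ, 1 ≤ ζ → 1 ≤ b → (ζ : ℝ) ≤ C₁ → ((b * ζ : ℕ) : ℝ) ≤ C₂ * r →
        ¬ IsOSI n ζ b r α₀ (1 / 100) := by
  obtain ⟨r₀, h⟩ := result C₁ C₂ α₀ (1 / 100) hα (by norm_num)
  have hlim : Filter.Tendsto (fun n : ℕ => c * n / Real.log n) Filter.atTop Filter.atTop := by
    have h1 : Filter.Tendsto (fun x : ℝ => c * (x / Real.log x)) Filter.atTop Filter.atTop := by
      apply Filter.Tendsto.const_mul_atTop hc
      have h2 := Real.tendsto_exp_div_pow_atTop 1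
      have h3 : Filter.Tendsto (fun x : ℝ => Real.exp (Real.log x) / (Real.log x) ^ 1)
          Filter.atTop Filter.atTop := h2.comp Real.tendsto_log_atTop
      refine h3.congr' ?_
      filter_upwards [Filter.eventually_gt_atTop 0] with x hx
      rw [Real.exp_log hx, pow_one]
    refine (h1.comp tendsto_natCast_atTop_atTop).congr fun n => ?_
    simp only [Function.comp]; ring
  obtain ⟨n, hn1, hn2⟩ := ((hlim.eventually_ge_atTop ((max r₀ 1 : ℕ) : ℝ)).and
    (Filter.eventually_ge_atTop (max r₀ 1))).exists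
  exact ⟨n, max r₀ 1, le_max_right _ _, hn1, h (max r₀ 1) (le_max_left _ _) n hn2⟩

/-- The answer to Q2 is negative: with `ζ = 4` and `k = 2 r` no constant parameter works. -/
theorem answer_Q2 (α₀ : ℝ) (hα : 0 < α₀) :
    ∃ r₀ : ℕ, ∀ r : ℕ, r₀ ≤ r → Even r → ∀ n : ℕ, r ≤ n →
      ¬ IsOSI n 4 (r / 2) r α₀ (1 / 100) := by
  obtain ⟨r₀, h⟩ := result 4 2 α₀ (1 / 100) hα (by norm_num)
  refine ⟨max r₀ 2, ?_⟩
  intro r hr heven n hn
  have hr2 : 2 ≤ r := (le_max_right _ _).trans hr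
  exact h r ((le_max_left _ _).trans hr) n hn 4 (r / 2) (by norm_num)
    (by omega) (by norm_num) (by
      have : r / 2 * 4 = 2 * r := by
        obtain ⟨t, rfl⟩ := heven; omega
      rw [this]; push_cast; exact le_rfl)

end Pool.Agent.Results.MP_59a663_pr.ConstSparsityFails
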